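import Mathlib

/-!
# The optimal dimension exponent for strongly Kreiss bounded operators is `1`

Upper bound (every `M`, exponent `1`): a rank / trace argument for a Hankel-type matrix of Fourier
averages of the resolvent.

Lower bound (already for `M = 1`): on the `2 N`-dimensional space of vectors `v`, normed by
`‖v‖ = sup_z exp (-|z|) |∑ v_i exp (μ_i z)|`, where the `μ_i` are the `N`-th roots of unity `ω ^ j`
and the numbers `(1 - 1 / N ^ 2) ω ^ j`, the diagonal operator with entries `μ_i` has strong Kreiss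
constant `1` and powers of norm at least `N / 24`.
-/

open scoped BigOperators BoundedContinuousFunction InnerProductSpace

namespace Pool.Agent.Results.MP_389529_an.OptimalExponent

universe u

/-- `T` is strongly Kreiss bounded with constant (at most) `M`: the spectrum of `T` lies in the
closed unit disc and `‖R(z, T) ^ k‖ ≤ M / (|z| - 1) ^ k` for all `k ≥ 1` and all `|z| > 1`. -/
def StronglyKreissBounded {X : Type u} [NormedAddCommGroup X] [NormedSpace ℂ X]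
    (T : X →L[ℂ] X) (M : ℝ) : Prop :=
  (∀ z ∈ spectrum ℂ T, ‖z‖ ≤ 1) ∧
    ∀ k : ℕ, 1 ≤ k → ∀ z : ℂ, 1 < ‖z‖ → ‖(resolvent T z) ^ k‖ ≤ M / (‖z‖ - 1) ^ k

/-- Uniform power bounds `C * d ^ θ` for strong Kreiss constant at most `M`. -/
def AdmissibleFor (M θ : ℝ) : Prop :=
  ∃ C : ℝ, ∀ (X : Type u) [NormedAddCommGroup X] [NormedSpace ℂ X] [FiniteDimensional ℂ X],
    1 ≤ Module.finrank ℂ X → ∀ T : X →L[ℂ] X, StronglyKreissBounded T M →
      ∀ n : ℕ, 1 ≤ n → ‖T ^ n‖ ≤ C * (Module.finrank ℂ X : ℝ) ^ θ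

/-- `θ` is admissible: `θ ≥ 0` and for every `M ≥ 1` there is `C = C(M)` with `‖T ^ n‖ ≤ C d ^ θ`
for all `n ≥ 1`, all `d`, all `d`-dimensional `X` and all strongly Kreiss bounded `T` on `X` with
constant at most `M`. -/
def Admissible (θ : ℝ) : Prop := 0 ≤ θ ∧ ∀ M : ℝ, 1 ≤ M → AdmissibleFor.{u} M θ

/-- The optimal exponent `θ*`: the infimum of the admissible exponents. -/
noncomputable def thetaStar : ℝ := sInf {θ : ℝ | Admissible.{u} θ}

/-! ## The lower bound -/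

/-- The elementary comparison estimate: an exponential sum whose version with the generator applied is
bounded by `K * exp ‖·‖` is itself bounded by `K / (‖z‖ - 1) * exp ‖·‖`. -/
theorem key_bound {ι : Type u} [Fintype ι] (μ : ι → ℂ) (hμ : ∀ i, ‖μ i‖ ≤ 1) (y : ι → ℂ)
    (lam : ℂ) (hlam : 1 < ‖lam‖) (K : ℝ)
    (hK : ∀ z : ℂ, ‖∑ i, (lam - μ i) * y i * Complex.exp (μ i * z)‖ ≤ K * Real.exp ‖z‖) (z : ℂ) :
    ‖∑ i, y i * Complex.exp (μ i * z)‖ ≤ K / (‖lam‖ - 1) * Real.exp ‖z‖ := by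
  have hl0 : (0:ℝ) < ‖lam‖ := by linarith
  have hl1 : (0:ℝ) < ‖lam‖ - 1 := by linarith
  have hlne : (‖lam‖ : ℂ) ≠ 0 := by exact_mod_cast hl0.ne'
  set w : ℂ := (starRingEnd ℂ) lam / ‖lam‖ with hw
  have hwn : ‖w‖ = 1 := by
    rw [hw, norm_div, RCLike.norm_conj, Complex.norm_real, norm_norm, div_self hl0.ne']
  have hlw : lam * w = ‖lam‖ := by
    rw [hw, mul_div_assoc', Complex.mul_conj', sq, mul_div_assoc, div_self hlne, mul_one]
  set h : ℝ → ℂ := fun t => ∑ i, y i * Complex.exp (-(‖lam‖ : ℂ) * t + μ i * (z + w * t)) with hh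
  set h' : ℝ → ℂ := fun t => ∑ i, y i * (Complex.exp (-(‖lam‖ : ℂ) * t + μ i * (z + w * t)) *
    (-(‖lam‖ : ℂ) + μ i * w)) with hh'
  have hder : ∀ t : ℝ, HasDerivAt h (h' t) t := by
    intro t
    apply HasDerivAt.fun_sum
    intro i _
    apply HasDerivAt.const_mul
    have h1 : HasDerivAt (fun t : ℝ => (t : ℂ)) 1 t := Complex.ofRealCLM.hasDerivAt
    have h2 : HasDerivAt (fun t : ℝ => -(‖lam‖ : ℂ) * t + μ i * (z + w * t))
        (-(‖lam‖ : ℂ) * 1 + μ i * (w * 1)) t :=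
      (h1.const_mul _).add (((h1.const_mul w).const_add z).const_mul (μ i))
    have h3 := h2.cexp
    simpa using h3
  have hbd : ∀ t : ℝ, 0 ≤ t → ‖h' t‖ ≤ K * Real.exp ‖z‖ * Real.exp (-(‖lam‖ - 1) * t) := by
    intro t ht
    have e1 : h' t = -(w * Complex.exp (-(‖lam‖ : ℂ) * t)) *
        ∑ i, (lam - μ i) * y i * Complex.exp (μ i * (z + w * t)) := by
      rw [hh']
      simp only
      rw [Finset.mul_sum]
      apply Finset.sum_congr rfl
      intro i _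
      rw [Complex.exp_add, ← hlw]
      ring
    rw [e1, norm_mul, norm_neg, norm_mul, hwn, one_mul, Complex.norm_exp]
    have e2 : (-(‖lam‖ : ℂ) * t).re = -‖lam‖ * t := by
      rw [← Complex.ofReal_neg, ← Complex.ofReal_mul, Complex.ofReal_re]
    rw [e2]
    have e3 := hK (z + w * t)
    have e4 : ‖z + w * t‖ ≤ ‖z‖ + t := by
      calc ‖z + w * t‖ ≤ ‖z‖ + ‖w * t‖ := norm_add_le _ _
        _ = ‖z‖ + t := by rw [norm_mul, hwn, one_mul, Complex.norm_real, Real.norm_of_nonneg ht]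
    have hK0 : 0 ≤ K := by
      have := hK 0
      have h0 : 0 ≤ K * Real.exp ‖(0:ℂ)‖ := le_trans (norm_nonneg _) this
      simpa using h0
    calc Real.exp (-‖lam‖ * t) * ‖∑ i, (lam - μ i) * y i * Complex.exp (μ i * (z + w * t))‖
        ≤ Real.exp (-‖lam‖ * t) * (K * Real.exp ‖z + w * t‖) := by gcongr
      _ ≤ Real.exp (-‖lam‖ * t) * (K * Real.exp (‖z‖ + t)) := by gcongr
      _ = K * Real.exp ‖z‖ * Real.exp (-(‖lam‖ - 1) * t) := by
          rw [Real.exp_add, show -(‖lam‖ - 1) * t = -‖lam‖ * t + t by ring, Real.exp_add]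
          ring
  set B : ℝ → ℝ := fun t => K * Real.exp ‖z‖ * ((1 - Real.exp (-(‖lam‖ - 1) * t)) / (‖lam‖ - 1))
    with hB
  have hBder : ∀ t : ℝ, HasDerivAt B (K * Real.exp ‖z‖ * Real.exp (-(‖lam‖ - 1) * t)) t := by
    intro t
    have h1 : HasDerivAt (fun t : ℝ => -(‖lam‖ - 1) * t) (-(‖lam‖ - 1) * 1) t :=
      (hasDerivAt_id t).const_mul _
    have h2 := ((h1.exp.const_sub 1).div_const (‖lam‖ - 1)).const_mul (K * Real.exp ‖z‖)
    have hne : ‖lam‖ - 1 ≠ 0 := hl1.ne'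
    have h3 : K * Real.exp ‖z‖ * (-(Real.exp (-(‖lam‖ - 1) * t) * (-(‖lam‖ - 1) * 1)) /
        (‖lam‖ - 1)) = K * Real.exp ‖z‖ * Real.exp (-(‖lam‖ - 1) * t) := by
      rw [mul_one, mul_neg, neg_neg, mul_div_assoc, div_self hne, mul_one]
    rw [h3] at h2
    exact h2
  have hK0 : 0 ≤ K := by
    have := hK 0
    have h0 : 0 ≤ K * Real.exp ‖(0:ℂ)‖ := le_trans (norm_nonneg _) this
    simpa using h0
  have hmain : ∀ t : ℝ, 0 ≤ t → ‖h t - h 0‖ ≤ K / (‖lam‖ - 1) * Real.exp ‖z‖ := by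
    intro t ht
    have := image_norm_le_of_norm_deriv_right_le_deriv_boundary (f := fun s => h s - h 0)
      (f' := h') (a := 0) (b := t) (B := B)
      (B' := fun t => K * Real.exp ‖z‖ * Real.exp (-(‖lam‖ - 1) * t))
      (fun s _ => ((hder s).sub_const (h 0)).continuousAt.continuousWithinAt)
      (fun s _ => ((hder s).sub_const (h 0)).hasDerivWithinAt)
      (by simp [hB]) hBder (fun s hs => hbd s hs.1) (Set.right_mem_Icc.2 ht)
    refine this.trans ?_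
    rw [hB]
    simp only
    have : (1 - Real.exp (-(‖lam‖ - 1) * t)) / (‖lam‖ - 1) ≤ 1 / (‖lam‖ - 1) := by
      gcongr
      linarith [Real.exp_pos (-(‖lam‖ - 1) * t)]
    calc K * Real.exp ‖z‖ * ((1 - Real.exp (-(‖lam‖ - 1) * t)) / (‖lam‖ - 1))
        ≤ K * Real.exp ‖z‖ * (1 / (‖lam‖ - 1)) := by gcongr
      _ = K / (‖lam‖ - 1) * Real.exp ‖z‖ := by ring
  -- decay of `h`
  have hlim : Filter.Tendsto (fun t : ℝ => h t) Filter.atTop (nhds 0) := by
    rw [← Finset.sum_const_zero (s := (Finset.univ : Finset ι)) ]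
    apply tendsto_finsetSum
    intro i _
    rw [tendsto_zero_iff_norm_tendsto_zero]
    have hb : ∀ᶠ t : ℝ in Filter.atTop,
        ‖y i * Complex.exp (-(‖lam‖ : ℂ) * t + μ i * (z + w * t))‖ ≤
          ‖y i‖ * Real.exp ‖z‖ * Real.exp (-(‖lam‖ - 1) * t) := by
      filter_upwards [Filter.eventually_ge_atTop 0] with t ht
      rw [norm_mul, Complex.norm_exp, mul_assoc, ← Real.exp_add]
      have : (-(‖lam‖ : ℂ) * t + μ i * (z + w * t)).re ≤ ‖z‖ + -(‖lam‖ - 1) * t := by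
        have e2 : (-(‖lam‖ : ℂ) * t).re = -‖lam‖ * t := by
          rw [← Complex.ofReal_neg, ← Complex.ofReal_mul, Complex.ofReal_re]
        rw [Complex.add_re, e2]
        have : (μ i * (z + w * t)).re ≤ ‖z‖ + t := by
          calc (μ i * (z + w * t)).re ≤ ‖μ i * (z + w * t)‖ := Complex.re_le_norm _
            _ = ‖μ i‖ * ‖z + w * t‖ := norm_mul _ _
            _ ≤ 1 * (‖z‖ + ‖w * t‖) := by
              gcongr
              · exact hμ i
              · exact norm_add_le _ _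
            _ = ‖z‖ + t := by
              rw [norm_mul, hwn, one_mul, one_mul, Complex.norm_real, Real.norm_of_nonneg ht]
        linarith
      gcongr
    refine squeeze_zero' (Filter.Eventually.of_forall fun _ => norm_nonneg _) hb ?_
    have : Filter.Tendsto (fun t : ℝ => Real.exp (-(‖lam‖ - 1) * t)) Filter.atTop (nhds 0) := by
      apply Real.tendsto_exp_atBot.comp
      exact Filter.Tendsto.const_mul_atTop_of_neg (by linarith) Filter.tendsto_id
    simpa using this.const_mul (‖y i‖ * Real.exp ‖z‖)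
  have hfin : ‖h 0‖ ≤ K / (‖lam‖ - 1) * Real.exp ‖z‖ := by
    have h1 : Filter.Tendsto (fun t : ℝ => ‖h t - h 0‖) Filter.atTop (nhds ‖0 - h 0‖) :=
      (hlim.sub_const (h 0)).norm
    rw [zero_sub, norm_neg] at h1
    refine le_of_tendsto h1 ?_
    filter_upwards [Filter.eventually_ge_atTop 0] with t ht
    exact hmain t ht
  have h0 : h 0 = ∑ i, y i * Complex.exp (μ i * z) := by
    simp [hh]
  rwa [h0] at hfin

/-- The bare vector space `ι → ℂ` (without its usual norm). -/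
def V (ι : Type u) : Type u := ι → ℂ

instance (ι : Type u) : AddCommGroup (V ι) := inferInstanceAs (AddCommGroup (ι → ℂ))
instance (ι : Type u) : Module ℂ (V ι) := inferInstanceAs (Module ℂ (ι → ℂ))
instance (ι : Type u) [Fintype ι] : FiniteDimensional ℂ (V ι) :=
  inferInstanceAs (FiniteDimensional ℂ (ι → ℂ))

theorem expsum_bound {ι : Type u} [Fintype ι] (μ : ι → ℂ) (hμ : ∀ i, ‖μ i‖ ≤ 1) (v : ι → ℂ)
    (z : ℂ) : ‖∑ i, v i * Complex.exp (μ i * z)‖ ≤ (∑ i, ‖v i‖) * Real.exp ‖z‖ := by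
  rw [Finset.sum_mul]
  refine (norm_sum_le _ _).trans (Finset.sum_le_sum fun i _ => ?_)
  rw [norm_mul, Complex.norm_exp]
  gcongr
  calc (μ i * z).re ≤ ‖μ i * z‖ := Complex.re_le_norm _
    _ = ‖μ i‖ * ‖z‖ := norm_mul _ _
    _ ≤ 1 * ‖z‖ := by gcongr; exact hμ i
    _ = ‖z‖ := one_mul _

/-- the weighted exponential sum attached to a vector -/
noncomputable def wsum {ι : Type u} [Fintype ι] (μ : ι → ℂ) (v : V ι) (z : ℂ) : ℂ :=
  (Real.exp (-‖z‖) : ℂ) * ∑ i, v i * Complex.exp (μ i * z)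

theorem norm_wsum {ι : Type u} [Fintype ι] (μ : ι → ℂ) (v : V ι) (z : ℂ) :
    ‖wsum μ v z‖ = Real.exp (-‖z‖) * ‖∑ i, v i * Complex.exp (μ i * z)‖ := by
  rw [wsum, norm_mul, Complex.norm_real, Real.norm_of_nonneg (Real.exp_pos _).le]

/-- The embedding into bounded continuous functions which defines the norm. -/
noncomputable def emb {ι : Type u} [Fintype ι] (μ : ι → ℂ) (hμ : ∀ i, ‖μ i‖ ≤ 1) :
    V ι →ₗ[ℂ] (ℂ →ᵇ ℂ) where
  toFun v := BoundedContinuousFunction.ofNormedAddCommGroup (wsum μ v)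
    (by unfold wsum; fun_prop) (∑ i, ‖v i‖) (by
      intro z
      rw [norm_wsum]
      calc Real.exp (-‖z‖) * ‖∑ i, v i * Complex.exp (μ i * z)‖
          ≤ Real.exp (-‖z‖) * ((∑ i, ‖v i‖) * Real.exp ‖z‖) := by
            gcongr; exact expsum_bound μ hμ v z
        _ = ∑ i, ‖v i‖ := by
            rw [mul_comm, mul_assoc, ← Real.exp_add]; simp)
  map_add' v w := by
    ext z
    simp only [BoundedContinuousFunction.coe_ofNormedAddCommGroup,
      BoundedContinuousFunction.coe_add, Pi.add_apply]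
    unfold wsum
    rw [← mul_add, ← Finset.sum_add_distrib]
    congr 1
    apply Finset.sum_congr rfl
    intro i _
    change (v i + w i) * _ = _
    ring
  map_smul' c v := by
    ext z
    simp only [BoundedContinuousFunction.coe_ofNormedAddCommGroup, RingHom.id_apply,
      BoundedContinuousFunction.coe_smul]
    unfold wsum
    rw [smul_eq_mul, mul_left_comm, Finset.mul_sum (a := c)]
    congr 1
    apply Finset.sum_congr rfl
    intro i _
    change (c * v i) * _ = _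
    ring

theorem emb_apply {ι : Type u} [Fintype ι] (μ : ι → ℂ) (hμ : ∀ i, ‖μ i‖ ≤ 1) (v : V ι) (z : ℂ) :
    emb μ hμ v z = wsum μ v z := rfl

theorem emb_injective {ι : Type u} [Fintype ι] (μ : ι → ℂ) (hμ : ∀ i, ‖μ i‖ ≤ 1)
    (hinj : Function.Injective μ) : Function.Injective (emb μ hμ) := by
  rw [injective_iff_map_eq_zero]
  intro v hv
  -- characters
  let χ : ι → (Multiplicative ℂ →* ℂ) := fun i =>
    { toFun := fun z => Complex.exp (μ i * z.toAdd)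
      map_one' := by simp
      map_mul' := by intro x y; simp [mul_add, Complex.exp_add] }
  have hχ : Function.Injective χ := by
    intro i j hij
    apply hinj
    have h1 : (fun z : ℂ => Complex.exp (μ i * z)) = fun z : ℂ => Complex.exp (μ j * z) := by
      funext z
      exact DFunLike.congr_fun hij (Multiplicative.ofAdd z)
    have h2 : ∀ k : ι, HasDerivAt (fun z : ℂ => Complex.exp (μ k * z)) (μ k) 0 := by
      intro k
      have := ((hasDerivAt_id (0:ℂ)).const_mul (μ k)).cexp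
      simpa using this
    have h3 := h2 i
    rw [h1] at h3
    exact h3.unique (h2 j)
  have hli := (linearIndependent_monoidHom (Multiplicative ℂ) ℂ).comp χ hχ
  rw [Fintype.linearIndependent_iff] at hli
  funext i
  apply hli v
  funext z
  have h1 : emb μ hμ v z.toAdd = 0 := by rw [hv]; rfl
  rw [emb_apply] at h1
  unfold wsum at h1
  have h2 : ((Real.exp (-‖Multiplicative.toAdd z‖) : ℝ) : ℂ) ≠ 0 := by
    exact_mod_cast (Real.exp_pos _).ne'
  have h3 := (mul_eq_zero.1 h1).resolve_left h2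
  simpa [χ, Finset.sum_apply] using h3

/-- multiplication by the symbol `c` on coordinates. -/
def diag {ι : Type u} (c : ι → ℂ) : V ι →ₗ[ℂ] V ι where
  toFun v := fun i => c i * v i
  map_add' v w := by
    funext i
    change c i * (v i + w i) = c i * v i + c i * w i
    ring
  map_smul' r v := by
    funext i
    change c i * (r * v i) = r * (c i * v i)
    ring

theorem exists_space {ι : Type u} [Fintype ι] (μ : ι → ℂ) (hinj : Function.Injective μ)
    (hμ : ∀ i, ‖μ i‖ ≤ 1) (a : ι → ℂ) (C : ℝ)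
    (hC : ∀ z : ℂ, ‖∑ i, a i * Complex.exp (μ i * z)‖ ≤ C * Real.exp ‖z‖) :
    ∃ (X : Type u) (_ : NormedAddCommGroup X) (_ : NormedSpace ℂ X)
      (_ : FiniteDimensional ℂ X) (T : X →L[ℂ] X),
      Module.finrank ℂ X = Fintype.card ι ∧ StronglyKreissBounded T 1 ∧
        ∀ n : ℕ, ‖∑ i, a i * μ i ^ n‖ ≤ C * ‖T ^ n‖ := by
  let nacg : NormedAddCommGroup (V ι) :=
    NormedAddCommGroup.induced (V ι) (ℂ →ᵇ ℂ) (emb μ hμ) (emb_injective μ hμ hinj)
  let ns : NormedSpace ℂ (V ι) := NormedSpace.induced ℂ (V ι) (ℂ →ᵇ ℂ) (emb μ hμ)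
  have hnorm : ∀ v : V ι, ‖v‖ = ‖emb μ hμ v‖ := fun v => rfl
  have hnorm_le : ∀ (v : V ι) (K : ℝ), 0 ≤ K →
      (∀ z : ℂ, ‖∑ i, v i * Complex.exp (μ i * z)‖ ≤ K * Real.exp ‖z‖) → ‖v‖ ≤ K := by
    intro v K hK0 hK
    rw [hnorm, BoundedContinuousFunction.norm_le hK0]
    intro z
    rw [emb_apply, norm_wsum]
    calc Real.exp (-‖z‖) * ‖∑ i, v i * Complex.exp (μ i * z)‖
        ≤ Real.exp (-‖z‖) * (K * Real.exp ‖z‖) := by gcongr; exact hK z
      _ = K := by rw [mul_comm, mul_assoc, ← Real.exp_add]; simp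
  have hle_norm : ∀ (v : V ι) (z : ℂ),
      ‖∑ i, v i * Complex.exp (μ i * z)‖ ≤ ‖v‖ * Real.exp ‖z‖ := by
    intro v z
    have h1 : ‖emb μ hμ v z‖ ≤ ‖v‖ := (emb μ hμ v).norm_coe_le_norm z
    rw [emb_apply, norm_wsum] at h1
    calc ‖∑ i, v i * Complex.exp (μ i * z)‖
        = (Real.exp (-‖z‖) * ‖∑ i, v i * Complex.exp (μ i * z)‖) * Real.exp ‖z‖ := by
          rw [mul_comm (Real.exp (-‖z‖)), mul_assoc, ← Real.exp_add]; simp
      _ ≤ ‖v‖ * Real.exp ‖z‖ := by gcongr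
  let T : V ι →L[ℂ] V ι := LinearMap.toContinuousLinearMap (diag μ)
  have hT : ∀ (v : V ι) (i : ι), (T v) i = μ i * v i := fun v i => rfl
  have hTpow : ∀ (n : ℕ) (v : V ι) (i : ι), ((T ^ n) v) i = μ i ^ n * v i := by
    intro n
    induction n with
    | zero => intro v i; simp
    | succ n ih =>
      intro v i
      rw [pow_succ', mul_apply_eq_comp, hT, ih, pow_succ']
      ring
  -- the resolvent
  have hres : ∀ z : ℂ, 1 < ‖z‖ → IsUnit (algebraMap ℂ (V ι →L[ℂ] V ι) z - T) ∧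
      ‖resolvent T z‖ ≤ 1 / (‖z‖ - 1) := by
    intro z hz
    have hz1 : 0 < ‖z‖ - 1 := by linarith
    have hne : ∀ i, z - μ i ≠ 0 := by
      intro i h0
      have : z = μ i := sub_eq_zero.1 h0
      rw [this] at hz
      exact absurd (hμ i) (not_le.2 hz)
    let R : V ι →L[ℂ] V ι := LinearMap.toContinuousLinearMap (diag fun i => (z - μ i)⁻¹)
    have hR : ∀ (v : V ι) (i : ι), (R v) i = (z - μ i)⁻¹ * v i := fun v i => rfl
    have hS : ∀ (v : V ι) (i : ι), ((algebraMap ℂ (V ι →L[ℂ] V ι) z - T) v) i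
        = (z - μ i) * v i := by
      intro v i
      rw [sub_apply]
      change ((algebraMap ℂ (V ι →L[ℂ] V ι) z) v) i - (T v) i = _
      rw [hT, Algebra.algebraMap_eq_smul_one]
      change z * v i - μ i * v i = _
      ring
    have h1 : (algebraMap ℂ (V ι →L[ℂ] V ι) z - T) * R = 1 := by
      ext v
      funext i
      rw [mul_apply_eq_comp, hS, hR, mul_inv_cancel_left₀ (hne i)]
      rfl
    have h2 : R * (algebraMap ℂ (V ι →L[ℂ] V ι) z - T) = 1 := by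
      ext v
      funext i
      rw [mul_apply_eq_comp, hR, hS, inv_mul_cancel_left₀ (hne i)]
      rfl
    let U : (V ι →L[ℂ] V ι)ˣ := ⟨algebraMap ℂ (V ι →L[ℂ] V ι) z - T, R, h1, h2⟩
    refine ⟨⟨U, rfl⟩, ?_⟩
    have h3 : resolvent T z = R := by
      unfold resolvent
      exact Ring.inverse_unit U
    rw [h3]
    refine ContinuousLinearMap.opNorm_le_bound _ (by positivity) fun v => ?_
    refine hnorm_le _ _ (by positivity) fun w => ?_
    have := key_bound μ hμ (fun i => (R v) i) z hz ‖v‖ (by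
      intro w
      have h4 := hle_norm v w
      convert h4 using 4
      rw [hR, mul_inv_cancel_left₀ (hne _)]) w
    calc _ ≤ _ := this
      _ = _ := by ring
  refine ⟨V ι, nacg, ns, inferInstance, T, ?_, ⟨?_, ?_⟩, ?_⟩
  · change Module.finrank ℂ (ι → ℂ) = _
    exact Module.finrank_fintype_fun_eq_card ℂ
  · intro z hz
    by_contra hcon
    rw [not_le] at hcon
    exact hz (hres z hcon).1
  · intro k hk z hz
    have hz1 : 0 < ‖z‖ - 1 := by linarith
    calc ‖resolvent T z ^ k‖ ≤ ‖resolvent T z‖ ^ k := norm_pow_le' _ (by omega)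
      _ ≤ (1 / (‖z‖ - 1)) ^ k := by
        gcongr
        exact (hres z hz).2
      _ = 1 / (‖z‖ - 1) ^ k := by rw [div_pow, one_pow]
  · intro n
    have hC0 : 0 ≤ C := by
      have := (norm_nonneg _).trans (hC 0)
      simpa using this
    let av : V ι := a
    have ha : ‖av‖ ≤ C := hnorm_le av C hC0 hC
    have h1 := hle_norm ((T ^ n) av) 0
    simp only [mul_zero, Complex.exp_zero, mul_one, norm_zero, Real.exp_zero] at h1
    have h2 : ∑ i, a i * μ i ^ n = ∑ i, ((T ^ n) av) i := by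
      apply Finset.sum_congr rfl
      intro i _
      rw [hTpow n av i, mul_comm]
    rw [h2]
    calc _ ≤ _ := h1
      _ ≤ ‖T ^ n‖ * ‖av‖ := (T ^ n).le_opNorm _
      _ ≤ ‖T ^ n‖ * C := by gcongr
      _ = C * ‖T ^ n‖ := mul_comm _ _

/-- exponential bound on segments -/
theorem norm_exp_smul_le (w : ℂ) (t : ℝ) (h0 : 0 ≤ t) (h1 : t ≤ 1) :
    ‖Complex.exp (t * w)‖ ≤ Real.exp ((‖w‖ + w.re) / 2) := by
  rw [Complex.norm_exp, Complex.re_ofReal_mul]
  gcongr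
  have h2 : w.re ≤ ‖w‖ := Complex.re_le_norm w
  have h3 : -‖w‖ ≤ w.re := by
    have := Complex.abs_re_le_norm w
    exact (abs_le.1 this).1
  rcases le_or_gt 0 w.re with h | h
  · nlinarith
  · nlinarith

theorem norm_exp_sub_le (w : ℂ) (ε : ℝ) (h0 : 0 ≤ ε) (h1 : ε ≤ 1) :
    ‖Complex.exp w - Complex.exp ((1 - ε : ℝ) * w)‖ ≤
      ε * ‖w‖ * Real.exp ((‖w‖ + w.re) / 2) := by
  have hd : ∀ t : ℝ, HasDerivAt (fun t : ℝ => Complex.exp (t * w)) (Complex.exp (t * w) * (1 * w))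
      t := by
    intro t
    have h1 : HasDerivAt (fun t : ℝ => (t : ℂ)) 1 t := Complex.ofRealCLM.hasDerivAt
    exact (h1.mul_const w).cexp
  have key := norm_image_sub_le_of_norm_deriv_le_segment' (f := fun t : ℝ => Complex.exp (t * w))
    (a := 1 - ε) (b := 1) (C := ‖w‖ * Real.exp ((‖w‖ + w.re) / 2))
    (fun t _ => (hd t).hasDerivWithinAt) (by
      intro t ht
      rw [norm_mul, one_mul, mul_comm]
      gcongr
      exact norm_exp_smul_le w t (by linarith [ht.1]) ht.2.le) 1 (Set.right_mem_Icc.2 (by linarith))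
  simp only [Complex.ofReal_one, one_mul] at key
  calc _ ≤ _ := key
    _ = _ := by ring

theorem norm_exp_sub_le' (w : ℂ) (ε : ℝ) (h0 : 0 ≤ ε) (h1 : ε ≤ 1) :
    ‖Complex.exp w - Complex.exp ((1 - ε : ℝ) * w)‖ ≤
      2 * Real.exp ((‖w‖ + w.re) / 2) := by
  have h2 := norm_exp_smul_le w 1 zero_le_one le_rfl
  have h3 := norm_exp_smul_le w (1 - ε) (by linarith) (by linarith)
  rw [Complex.ofReal_one, one_mul] at h2
  calc _ ≤ ‖Complex.exp w‖ + ‖Complex.exp ((1 - ε : ℝ) * w)‖ := norm_sub_le _ _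
    _ ≤ _ := by linarith

theorem mul_exp_neg_half_le (s : ℝ) (hs : 0 ≤ s) : s * Real.exp (-(s / 2)) ≤ 1 := by
  rw [Real.exp_neg, ← div_eq_mul_inv, div_le_one (Real.exp_pos _)]
  have := Real.quadratic_le_exp_of_nonneg (x := s / 2) (by positivity)
  nlinarith [sq_nonneg (s - 2)]

/-- The basic estimate for one pair of exponentials. -/
theorem term_bound (w : ℂ) (ε ρ : ℝ) (h0 : 0 ≤ ε) (h1 : ε ≤ 1) (hρ0 : 0 ≤ ρ) (hρ1 : ρ ≤ 1) :
    ‖Complex.exp w - Complex.exp ((1 - ε : ℝ) * w)‖ *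
      (ε * ‖w‖ + 2 * ρ * (‖w‖ - w.re)) ≤ 4 * ε * ‖w‖ * Real.exp ‖w‖ := by
  set m := ‖Complex.exp w - Complex.exp ((1 - ε : ℝ) * w)‖ with hm
  set s := ‖w‖ - w.re with hs
  have hs0 : 0 ≤ s := by
    have : w.re ≤ ‖w‖ := Complex.re_le_norm w
    linarith
  have hE : Real.exp ((‖w‖ + w.re) / 2) = Real.exp ‖w‖ * Real.exp (-(s / 2)) := by
    rw [← Real.exp_add]
    congr 1
    rw [hs]; ring
  have hm1 := norm_exp_sub_le w ε h0 h1
  have hm2 := norm_exp_sub_le' w ε h0 h1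
  rw [← hm, hE] at hm1 hm2
  have hm0 : 0 ≤ m := norm_nonneg _
  have he1 : Real.exp (-(s / 2)) ≤ 1 := by
    rw [Real.exp_le_one_iff]; linarith
  have he2 := mul_exp_neg_half_le s hs0
  have hE0 := Real.exp_pos ‖w‖
  have hE1 := Real.exp_pos (-(s / 2))
  have hw0 := norm_nonneg w
  have p1 : m * (ε * ‖w‖) ≤ 2 * (ε * ‖w‖) * Real.exp ‖w‖ := by
    calc m * (ε * ‖w‖) ≤ (2 * (Real.exp ‖w‖ * Real.exp (-(s / 2)))) * (ε * ‖w‖) := by gcongr
      _ ≤ (2 * (Real.exp ‖w‖ * 1)) * (ε * ‖w‖) := by gcongr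
      _ = _ := by ring
  have p2 : m * (2 * ρ * s) ≤ 2 * (ε * ‖w‖) * Real.exp ‖w‖ := by
    calc m * (2 * ρ * s) ≤ (ε * ‖w‖ * (Real.exp ‖w‖ * Real.exp (-(s / 2)))) * (2 * ρ * s) := by
          gcongr
      _ = (2 * (ε * ‖w‖) * Real.exp ‖w‖) * (ρ * (s * Real.exp (-(s / 2)))) := by ring
      _ ≤ (2 * (ε * ‖w‖) * Real.exp ‖w‖) * (1 * 1) := by gcongr
      _ = _ := by ring
  calc m * (ε * ‖w‖ + 2 * ρ * s) = m * (ε * ‖w‖) + m * (2 * ρ * s) := by ring
    _ ≤ _ := by linarith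

theorem sum_inv_one_sub (N : ℕ) (hN : 0 < N) (ω : ℂ) (hω : IsPrimitiveRoot ω N) (x : ℂ)
    (hx : ‖x‖ < 1) : ∑ j ∈ Finset.range N, (1 - x * ω ^ j)⁻¹ = N / (1 - x ^ N) := by
  have hxN : 1 - x ^ N ≠ 0 := by
    intro h
    have : x ^ N = 1 := by linear_combination -h
    have h2 : ‖x‖ ^ N = 1 := by rw [← norm_pow, this, norm_one]
    have h3 : ‖x‖ ^ N < 1 := pow_lt_one₀ (norm_nonneg _) hx hN.ne'
    linarith
  have hωn : ‖ω‖ = 1 := hω.norm'_eq_one hN.ne'
  have hxj : ∀ j, 1 - x * ω ^ j ≠ 0 := by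
    intro j h
    have h1 : x * ω ^ j = 1 := by linear_combination -h
    have h2 : ‖x * ω ^ j‖ = 1 := by rw [h1, norm_one]
    rw [norm_mul, norm_pow, hωn, one_pow, mul_one] at h2
    linarith
  rw [eq_div_iff hxN, Finset.sum_mul]
  have h1 : ∀ j, (1 - x * ω ^ j)⁻¹ * (1 - x ^ N) = ∑ k ∈ Finset.range N, x ^ k * (ω ^ k) ^ j := by
    intro j
    have h2 : (x * ω ^ j) ^ N = x ^ N := by
      rw [mul_pow, ← pow_mul, mul_comm j N, pow_mul, hω.pow_eq_one, one_pow, mul_one]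
    rw [inv_mul_eq_iff_eq_mul₀ (hxj j), ← h2]
    have := mul_neg_geom_sum (x * ω ^ j) N
    rw [← this]
    congr 1
    apply Finset.sum_congr rfl
    intro k _
    rw [mul_pow, ← pow_mul, ← pow_mul, mul_comm j k]
  simp_rw [h1]
  rw [Finset.sum_comm]
  have h3 : ∀ k ∈ Finset.range N, ∑ j ∈ Finset.range N, x ^ k * (ω ^ k) ^ j
      = if k = 0 then (N : ℂ) else 0 := by
    intro k hk
    rw [← Finset.mul_sum]
    split_ifs with h
    · subst h; simp
    · have h4 : ω ^ k ≠ 1 := by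
        intro h5
        exact hω.pow_ne_one_of_pos_of_lt h (Finset.mem_range.1 hk) h5
      have h5 : ∑ j ∈ Finset.range N, (ω ^ k) ^ j = 0 := by
        rw [geom_sum_eq h4, ← pow_mul, mul_comm, pow_mul, hω.pow_eq_one, one_pow, sub_self,
          zero_div]
      rw [h5, mul_zero]
  rw [Finset.sum_congr rfl h3]
  simp [hN]

theorem poisson_re (x : ℂ) (hx : 1 - x ≠ 0) :
    (2 * (1 - x)⁻¹ - 1).re = (1 - ‖x‖ ^ 2) / ‖1 - x‖ ^ 2 := by
  have h1 : 2 * (1 - x)⁻¹ - 1 = (1 + x) / (1 - x) := by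
    field_simp; ring
  rw [h1, Complex.div_re]
  have h2 : Complex.normSq (1 - x) = ‖1 - x‖ ^ 2 := Complex.normSq_eq_norm_sq _
  rw [h2, ← add_div]
  congr 1
  rw [← Complex.normSq_eq_norm_sq, Complex.normSq_apply]
  simp
  ring

theorem poisson_sum (N : ℕ) (hN : 0 < N) (ω : ℂ) (hω : IsPrimitiveRoot ω N) (x : ℂ)
    (hx : ‖x‖ < 1) : ∑ j ∈ Finset.range N, (1 - ‖x‖ ^ 2) / ‖1 - x * ω ^ j‖ ^ 2 ≤
      N * ((1 + ‖x‖ ^ N) / (1 - ‖x‖ ^ N)) := by
  have hωn : ‖ω‖ = 1 := hω.norm'_eq_one hN.ne'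
  have hxj : ∀ j, 1 - x * ω ^ j ≠ 0 := by
    intro j h
    have h1 : x * ω ^ j = 1 := by linear_combination -h
    have h2 : ‖x * ω ^ j‖ = 1 := by rw [h1, norm_one]
    rw [norm_mul, norm_pow, hωn, one_pow, mul_one] at h2
    linarith
  have hn : ∀ j, ‖x * ω ^ j‖ = ‖x‖ := by
    intro j
    rw [norm_mul, norm_pow, hωn, one_pow, mul_one]
  have h3 : ‖x‖ ^ N < 1 := pow_lt_one₀ (norm_nonneg _) hx hN.ne'
  have h4 : 1 - ‖x‖ ^ N ≤ ‖1 - x ^ N‖ := by
    have := norm_sub_norm_le (1 : ℂ) (x ^ N)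
    rwa [norm_one, norm_pow] at this
  have hxN : 1 - x ^ N ≠ 0 := by
    intro h
    rw [h, norm_zero] at h4
    linarith
  have h5 : ∀ j ∈ Finset.range N, (1 - ‖x‖ ^ 2) / ‖1 - x * ω ^ j‖ ^ 2 =
      (2 * (1 - x * ω ^ j)⁻¹ - 1).re := by
    intro j _
    rw [poisson_re _ (hxj j), hn]
  rw [Finset.sum_congr rfl h5, ← Complex.re_sum, Finset.sum_sub_distrib, ← Finset.mul_sum,
    sum_inv_one_sub N hN ω hω x hx]
  simp only [Finset.sum_const, Finset.card_range, nsmul_eq_mul, mul_one]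
  have h6 : 2 * (↑N / (1 - x ^ N)) - (N : ℂ) = N * (2 * (1 - x ^ N)⁻¹ - 1) := by ring
  rw [h6]
  have h7 : ((N : ℂ) * (2 * (1 - x ^ N)⁻¹ - 1)).re = N * (2 * (1 - x ^ N)⁻¹ - 1).re := by
    rw [Complex.mul_re]; simp
  rw [h7, poisson_re _ hxN]
  have h8 : (1 - ‖x ^ N‖ ^ 2) / ‖1 - x ^ N‖ ^ 2 ≤ (1 + ‖x‖ ^ N) / (1 - ‖x‖ ^ N) := by
    rw [norm_pow]
    have h9 : 0 < 1 - ‖x‖ ^ N := by linarith
    calc (1 - (‖x‖ ^ N) ^ 2) / ‖1 - x ^ N‖ ^ 2 ≤ (1 - (‖x‖ ^ N) ^ 2) / (1 - ‖x‖ ^ N) ^ 2 := by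
          gcongr
          nlinarith [pow_nonneg (norm_nonneg x) N]
      _ = _ := by
          field_simp
          ring
  gcongr

/-- The full estimate for the example. -/
theorem example_bound (N : ℕ) (hN : 0 < N) (ω : ℂ) (hω : IsPrimitiveRoot ω N) (z : ℂ) :
    ‖∑ j ∈ Finset.range N, (Complex.exp (ω ^ j * z) -
      Complex.exp ((1 - ((1:ℝ) / N) ^ 2 : ℝ) * (ω ^ j) * z))‖ ≤ 12 * Real.exp ‖z‖ := by
  rcases eq_or_ne z 0 with rfl | hz
  · simp
  have hωn : ‖ω‖ = 1 := hω.norm'_eq_one hN.ne'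
  have hr : 0 < ‖z‖ := norm_pos_iff.2 hz
  have hN1 : (1:ℝ) ≤ N := by exact_mod_cast hN
  have hN0 : (0:ℝ) < N := by linarith
  set δ : ℝ := 1 / N with hδ
  have hδ0 : 0 < δ := by positivity
  have hδ1 : δ ≤ 1 := by rw [hδ, div_le_one hN0]; exact hN1
  set ρ : ℝ := 1 - δ with hρ
  have hρ0 : 0 ≤ ρ := by linarith
  have hρ1 : ρ < 1 := by linarith
  set x : ℂ := ρ * (z / ‖z‖) with hx
  have hxn : ‖x‖ = ρ := by
    rw [hx, norm_mul, norm_div, Complex.norm_real, Complex.norm_real, norm_norm,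
      div_self hr.ne', mul_one, Real.norm_of_nonneg hρ0]
  have hterm : ∀ j ∈ Finset.range N, ‖Complex.exp (ω ^ j * z) -
      Complex.exp ((1 - δ ^ 2 : ℝ) * (ω ^ j) * z)‖ ≤
        4 * δ * Real.exp ‖z‖ * ((1 - ‖x‖ ^ 2) / ‖1 - x * ω ^ j‖ ^ 2) := by
    intro j _
    have hwn : ‖ω ^ j * z‖ = ‖z‖ := by rw [norm_mul, norm_pow, hωn, one_pow, one_mul]
    have h1 := term_bound (ω ^ j * z) (δ ^ 2) ρ (by positivity) (by nlinarith) hρ0 hρ1.le
    rw [hwn] at h1
    have h2 : δ ^ 2 * ‖z‖ + 2 * ρ * (‖z‖ - (ω ^ j * z).re) = ‖z‖ * ‖1 - x * ω ^ j‖ ^ 2 := by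
      have h3 : ‖1 - x * ω ^ j‖ ^ 2 = 1 + ρ ^ 2 - 2 * (x * ω ^ j).re := by
        have h4 : ‖x * ω ^ j‖ = ρ := by rw [norm_mul, norm_pow, hωn, one_pow, mul_one, hxn]
        have h5 : (x * ω ^ j).re ^ 2 + (x * ω ^ j).im ^ 2 = ρ ^ 2 := by
          rw [← h4, ← Complex.normSq_eq_norm_sq, Complex.normSq_apply]; ring
        rw [← Complex.normSq_eq_norm_sq, Complex.normSq_apply]
        simp only [Complex.sub_re, Complex.one_re, Complex.sub_im, Complex.one_im]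
        nlinarith [h5]
      have h6 : (x * ω ^ j).re * ‖z‖ = ρ * (ω ^ j * z).re := by
        have h7 : x * ω ^ j * (‖z‖ : ℝ) = (ρ : ℝ) * (ω ^ j * z) := by
          rw [hx]
          have : (‖z‖ : ℂ) ≠ 0 := by exact_mod_cast hr.ne'
          field_simp
        have h8 := congrArg Complex.re h7
        rwa [Complex.re_mul_ofReal, Complex.re_ofReal_mul] at h8
      rw [h3]
      have : δ = 1 - ρ := by rw [hρ]; ring
      rw [this]
      linear_combination 2 * h6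
    rw [h2] at h1
    have hpos : 0 < ‖1 - x * ω ^ j‖ := by
      rw [norm_pos_iff]
      intro h
      have h4 : ‖x * ω ^ j‖ = ρ := by rw [norm_mul, norm_pow, hωn, one_pow, mul_one, hxn]
      have h5 : x * ω ^ j = 1 := by linear_combination -h
      rw [h5, norm_one] at h4
      linarith
    rw [hxn]
    have h9 : (1 - ρ ^ 2) = δ * (1 + ρ) := by rw [hρ]; ring
    have h10 : ‖Complex.exp (ω ^ j * z) - Complex.exp ((1 - δ ^ 2 : ℝ) * (ω ^ j) * z)‖ *
        ‖1 - x * ω ^ j‖ ^ 2 ≤ 4 * δ ^ 2 * Real.exp ‖z‖ := by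
      have h11 : ‖z‖ * (‖Complex.exp (ω ^ j * z) - Complex.exp ((1 - δ ^ 2 : ℝ) * (ω ^ j) * z)‖ *
        ‖1 - x * ω ^ j‖ ^ 2) ≤ ‖z‖ * (4 * δ ^ 2 * Real.exp ‖z‖) := by
        rw [mul_assoc ((1 - δ ^ 2 : ℝ) : ℂ)]
        linarith [h1]
      exact le_of_mul_le_mul_left h11 hr
    rw [← mul_div_assoc, le_div_iff₀ (by positivity)]
    refine h10.trans ?_
    rw [h9]
    have : 0 ≤ 4 * δ ^ 2 * Real.exp ‖z‖ * ρ := by positivity
    nlinarith [this]
  calc _ ≤ ∑ j ∈ Finset.range N, ‖Complex.exp (ω ^ j * z) -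
      Complex.exp ((1 - δ ^ 2 : ℝ) * (ω ^ j) * z)‖ := norm_sum_le _ _
    _ ≤ ∑ j ∈ Finset.range N, 4 * δ * Real.exp ‖z‖ * ((1 - ‖x‖ ^ 2) / ‖1 - x * ω ^ j‖ ^ 2) :=
      Finset.sum_le_sum hterm
    _ = 4 * δ * Real.exp ‖z‖ * ∑ j ∈ Finset.range N, (1 - ‖x‖ ^ 2) / ‖1 - x * ω ^ j‖ ^ 2 := by
      rw [Finset.mul_sum]
    _ ≤ 4 * δ * Real.exp ‖z‖ * (N * ((1 + ‖x‖ ^ N) / (1 - ‖x‖ ^ N))) := by
      gcongr
      exact poisson_sum N hN ω hω x (by rw [hxn]; exact hρ1)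
    _ = 4 * Real.exp ‖z‖ * ((1 + ρ ^ N) / (1 - ρ ^ N)) := by
      rw [hxn, hδ]; field_simp
    _ ≤ 4 * Real.exp ‖z‖ * 3 := by
      have h1 : ρ ^ N ≤ 1 / 2 := by
        calc ρ ^ N ≤ Real.exp (-1) := Real.one_sub_div_pow_le_exp_neg hN1
          _ ≤ 1 / 2 := by
            rw [Real.exp_neg, inv_eq_one_div]
            apply one_div_le_one_div_of_le (by norm_num)
            have := Real.add_one_le_exp 1
            linarith
      have h2 : (1 + ρ ^ N) / (1 - ρ ^ N) ≤ 3 := by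
        rw [div_le_iff₀ (by linarith)]
        linarith
      gcongr
    _ = 12 * Real.exp ‖z‖ := by ring

/-! ## The upper bound -/

/-- orthogonality of roots of unity -/
theorem root_sum (L : ℕ) (ω : ℂ) (hω : IsPrimitiveRoot ω L) (i j : ℕ)
    (hi : i < L) (hj : j < L) (hij : i ≠ j) :
    ∑ s ∈ Finset.range L, ((ω⁻¹) ^ i * ω ^ j) ^ s = 0 := by
  have hω0 : ω ≠ 0 := hω.ne_zero (by omega)
  have h1 : (ω⁻¹) ^ i * ω ^ j ≠ 1 := by
    intro h
    rw [inv_pow, inv_mul_eq_one₀ (pow_ne_zero _ hω0)] at h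
    exact hij (hω.pow_inj hi hj h)
  rw [geom_sum_eq h1, mul_pow, ← pow_mul, ← pow_mul, mul_comm i L, mul_comm j L, pow_mul, pow_mul,
    inv_pow, hω.pow_eq_one, inv_one, one_pow, one_pow, mul_one, sub_self, zero_div]

theorem parseval (L n : ℕ) (hn : n ≤ L) (hL : 0 < L) (ω : ℂ) (hω : IsPrimitiveRoot ω L)
    (f : Fin n → ℂ) :
    ∑ s ∈ Finset.range L, ‖∑ j : Fin n, ω ^ (s * j) * f j‖ ^ 2 = L * ∑ j, ‖f j‖ ^ 2 := by
  have hωn : ‖ω‖ = 1 := hω.norm'_eq_one hL.ne'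
  have hconj : (starRingEnd ℂ) ω = ω⁻¹ := by
    rw [Complex.inv_def, Complex.normSq_eq_norm_sq, hωn]; simp
  have h1 : ∀ s ∈ Finset.range L, ((‖∑ j : Fin n, ω ^ (s * j) * f j‖ ^ 2 : ℝ) : ℂ) =
      ∑ i : Fin n, ∑ j : Fin n, (starRingEnd ℂ) (f i) * f j * ((ω⁻¹) ^ (i:ℕ) * ω ^ (j:ℕ)) ^ s := by
    intro s _
    rw [Complex.ofReal_pow, ← Complex.conj_mul', map_sum, Finset.sum_mul_sum]
    apply Finset.sum_congr rfl
    intro i _
    apply Finset.sum_congr rfl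
    intro j _
    rw [map_mul, map_pow, hconj, mul_pow, ← pow_mul, ← pow_mul, mul_comm s i, mul_comm s j]
    ring
  have h2 : ((∑ s ∈ Finset.range L, ‖∑ j : Fin n, ω ^ (s * j) * f j‖ ^ 2 : ℝ) : ℂ) =
      ((L * ∑ j, ‖f j‖ ^ 2 : ℝ) : ℂ) := by
    rw [Complex.ofReal_sum, Finset.sum_congr rfl h1, Finset.sum_comm]
    rw [Complex.ofReal_mul, Complex.ofReal_sum, Finset.mul_sum]
    apply Finset.sum_congr rfl
    intro i _
    rw [Finset.sum_comm, Finset.sum_eq_single i]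
    · rw [← Finset.mul_sum]
      have hω0 : ω ≠ 0 := hω.ne_zero hL.ne'
      have h3 : (ω⁻¹) ^ (i:ℕ) * ω ^ (i:ℕ) = 1 := by
        rw [← mul_pow, inv_mul_cancel₀ hω0, one_pow]
      rw [h3]
      simp only [one_pow, Finset.sum_const, Finset.card_range, nsmul_eq_mul, mul_one]
      rw [Complex.conj_mul']
      push_cast
      ring
    · intro j _ hji
      rw [← Finset.mul_sum, root_sum L ω hω i j (by omega) (by omega)
        (fun h => hji (Fin.ext h.symm)), mul_zero]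
    · intro h
      exact absurd (Finset.mem_univ i) h
  exact_mod_cast h2

/-- The trace/rank inequality. -/
theorem trace_bound {E : Type*} [NormedAddCommGroup E] [InnerProductSpace ℂ E]
    [FiniteDimensional ℂ E] (B : E →ₗ[ℂ] E) (p : Submodule ℂ E) (hp : ∀ x, B x ∈ p) (K : ℝ)
    (hB : ∀ f : E, ‖⟪f, B f⟫_ℂ‖ ≤ K * ‖f‖ ^ 2) :
    ‖LinearMap.trace ℂ E B‖ ≤ Module.finrank ℂ p * K := by
  have h1 := LinearMap.trace_restrict_eq_of_forall_mem p B hp
  rw [← h1, LinearMap.trace_eq_sum_inner _ (stdOrthonormalBasis ℂ p)]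
  calc _ ≤ ∑ i, ‖⟪stdOrthonormalBasis ℂ p i,
        (B.restrict (fun x _ => hp x)) (stdOrthonormalBasis ℂ p i)⟫_ℂ‖ := norm_sum_le _ _
    _ ≤ ∑ i : Fin (Module.finrank ℂ p), K := by
        apply Finset.sum_le_sum
        intro i _
        have h2 := hB (stdOrthonormalBasis ℂ p i : E)
        have h3 : ‖(stdOrthonormalBasis ℂ p i : E)‖ = 1 := by
          rw [← Submodule.coe_norm]
          exact (stdOrthonormalBasis ℂ p).orthonormal.1 i
        rw [h3, one_pow, mul_one] at h2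
        exact h2
    _ = _ := by simp


theorem exists_large_power {X : Type u} [NormedAddCommGroup X] [NormedSpace ℂ X]
    [FiniteDimensional ℂ X] (T : X →L[ℂ] X) (hT : ∀ z ∈ spectrum ℂ T, ‖z‖ ≤ 1) (ρ : ℝ)
    (hρ0 : 0 < ρ) (hρ1 : ρ < 1) (n : ℕ) : ∃ L : ℕ, n ≤ L ∧ ‖((ρ : ℂ) • T) ^ L‖ ≤ 1 := by
  have : CompleteSpace X := FiniteDimensional.complete ℂ X
  have h1 := spectrum.pow_norm_pow_one_div_tendsto_nhds_spectralRadius T
  have h2 : spectralRadius ℂ T ≤ 1 := by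
    unfold spectralRadius
    refine iSup₂_le fun z hz => ?_
    have := hT z hz
    rw [← nnnorm_norm] at *
    simpa [enorm, ← NNReal.coe_le_coe] using this
  have h3 : (1 : ENNReal) < ENNReal.ofReal (1 / ρ) := by
    rw [← ENNReal.ofReal_one]
    apply ENNReal.ofReal_lt_ofReal_iff_of_nonneg (by norm_num) |>.2
    rw [lt_div_iff₀ hρ0]; linarith
  have h4 := h1.eventually_lt_const (lt_of_le_of_lt h2 h3)
  obtain ⟨L, hL1, hL2, hL3⟩ := (h4.and ((Filter.eventually_ge_atTop n).and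
    (Filter.eventually_ge_atTop 1))).exists
  refine ⟨L, hL2, ?_⟩
  have h5 : ‖T ^ L‖ ^ (1 / L : ℝ) < 1 / ρ := (ENNReal.ofReal_lt_ofReal_iff (by positivity)).1 hL1
  have hL0 : (L : ℝ) ≠ 0 := by
    have : (1:ℝ) ≤ L := by exact_mod_cast hL3
    positivity
  have h6 : ‖T ^ L‖ ≤ (1 / ρ) ^ L := by
    calc ‖T ^ L‖ = (‖T ^ L‖ ^ (1 / L : ℝ)) ^ (L : ℝ) := by
          rw [← Real.rpow_mul (norm_nonneg _), one_div, inv_mul_cancel₀ hL0, Real.rpow_one]
      _ ≤ (1 / ρ) ^ (L : ℝ) := by gcongr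
      _ = (1 / ρ) ^ L := Real.rpow_natCast _ _
  rw [smul_pow, norm_smul, norm_pow, Complex.norm_real, Real.norm_of_nonneg hρ0.le]
  calc ρ ^ L * ‖T ^ L‖ ≤ ρ ^ L * (1 / ρ) ^ L := by gcongr
    _ = 1 := by rw [← mul_pow, mul_one_div_cancel hρ0.ne', one_pow]

/-- Discrete Fourier averages of the (rescaled) resolvent. -/
theorem fourier_resolvent {X : Type u} [NormedAddCommGroup X] [NormedSpace ℂ X]
    [FiniteDimensional ℂ X] (T : X →L[ℂ] X) (M : ℝ) (hT : StronglyKreissBounded T M) (ρ : ℝ)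
    (hρ0 : 0 < ρ) (hρ1 : ρ < 1) (L : ℕ) (hL : 1 < L) (ω : ℂ) (hω : IsPrimitiveRoot ω L) :
    ∃ R : ℕ → X →L[ℂ] X, (∀ s, ‖R s‖ ≤ M / (1 - ρ)) ∧
      ∃ Y : ℕ → X →L[ℂ] X, (∀ k, Y k = (L : ℂ)⁻¹ • ∑ s ∈ Finset.range L, (ω⁻¹) ^ (s * k) • R s) ∧
        (∀ k, k < L → Y k = ((ρ : ℂ) • T) ^ k * Y 0) ∧ (1 - ((ρ : ℂ) • T) ^ L) * Y 0 = 1 := by
  have hL0 : 0 < L := by omega
  have hLne : (L : ℂ) ≠ 0 := by exact_mod_cast hL0.ne'
  have hωn : ‖ω‖ = 1 := hω.norm'_eq_one hL0.ne'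
  have hω0 : ω ≠ 0 := hω.ne_zero hL0.ne'
  have hρc : (ρ : ℂ) ≠ 0 := by exact_mod_cast hρ0.ne'
  let lam : ℕ → ℂ := fun s => (ρ * ω ^ s)⁻¹
  have hlamn : ∀ s, ‖lam s‖ = 1 / ρ := by
    intro s
    simp only [lam]
    rw [norm_inv, norm_mul, norm_pow, hωn, one_pow, mul_one, Complex.norm_real,
      Real.norm_of_nonneg hρ0.le, one_div]
  have hlam1 : ∀ s, 1 < ‖lam s‖ := by
    intro s
    rw [hlamn, lt_div_iff₀ hρ0]; linarith
  have hlam0 : ∀ s, lam s ≠ 0 := by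
    intro s
    simp only [lam]
    exact inv_ne_zero (mul_ne_zero hρc (pow_ne_zero _ hω0))
  let R : ℕ → X →L[ℂ] X := fun s => lam s • resolvent T (lam s)
  let S : X →L[ℂ] X := (ρ : ℂ) • T
  have hR1 : ∀ s, (algebraMap ℂ (X →L[ℂ] X) (lam s) - T) * resolvent T (lam s) = 1 := by
    intro s
    unfold resolvent
    apply Ring.mul_inverse_cancel
    by_contra hcon
    have := hT.1 (lam s) hcon
    linarith [hlam1 s]
  have hR2 : ∀ s, S * R s = (ω⁻¹) ^ s • (R s - 1) := by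
    intro s
    have h1 := hR1 s
    rw [sub_mul, Algebra.algebraMap_eq_smul_one, smul_mul_assoc, one_mul, sub_eq_iff_eq_add] at h1
    have h2 : R s - 1 = T * resolvent T (lam s) := by
      simp only [R]
      rw [h1]; abel
    rw [h2]
    simp only [R, S, lam]
    rw [smul_mul_smul_comm]
    congr 1
    rw [mul_inv, ← mul_assoc, mul_inv_cancel₀ hρc, one_mul, inv_pow]
  let Y : ℕ → X →L[ℂ] X := fun k => (L : ℂ)⁻¹ • ∑ s ∈ Finset.range L, (ω⁻¹) ^ (s * k) • R s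
  have hY1 : ∀ k, S * Y k = Y (k + 1) -
      ((L : ℂ)⁻¹ * ∑ s ∈ Finset.range L, (ω⁻¹) ^ (s * (k + 1))) • (1 : X →L[ℂ] X) := by
    intro k
    simp only [Y]
    rw [mul_smul_comm, Finset.mul_sum, mul_smul, ← smul_sub, Finset.sum_smul,
      ← Finset.sum_sub_distrib]
    congr 1
    apply Finset.sum_congr rfl
    intro s _
    rw [mul_smul_comm, hR2, smul_smul, ← pow_add, smul_sub]
    have : s * k + s = s * (k + 1) := by ring
    rw [this]
  have hsum : ∀ k, 0 < k → k < L → ∑ s ∈ Finset.range L, (ω⁻¹) ^ (s * k) = 0 := by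
    intro k hk0 hkL
    have := root_sum L ω hω k 0 hkL hL0 hk0.ne'
    rw [← this]
    apply Finset.sum_congr rfl
    intro s _
    rw [pow_zero, mul_one, ← pow_mul, mul_comm]
  have hY2 : ∀ k, k < L → Y k = S ^ k * Y 0 := by
    intro k
    induction k with
    | zero => intro _; simp
    | succ k ih =>
      intro hk
      have h1 := hY1 k
      rw [hsum (k + 1) (by omega) hk, mul_zero, zero_smul, sub_zero] at h1
      rw [← h1, ih (by omega), pow_succ', mul_assoc]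
  have hY3 : (1 - S ^ L) * Y 0 = 1 := by
    have h1 := hY1 (L - 1)
    have h2 : L - 1 + 1 = L := by omega
    rw [h2] at h1
    have h3 : ∀ s, (ω⁻¹) ^ (s * L) = 1 := by
      intro s
      rw [mul_comm, pow_mul, inv_pow, hω.pow_eq_one, inv_one, one_pow]
    have h4 : Y L = Y 0 := by
      simp only [Y, h3, mul_zero, pow_zero]
    rw [h4, hY2 (L - 1) (by omega), ← mul_assoc, ← pow_succ', h2] at h1
    have h5 : (L : ℂ)⁻¹ * ∑ s ∈ Finset.range L, (ω⁻¹) ^ (s * L) = 1 := by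
      simp only [h3, Finset.sum_const, Finset.card_range, nsmul_eq_mul, mul_one]
      exact inv_mul_cancel₀ hLne
    rw [h5, one_smul] at h1
    rw [sub_mul, one_mul, h1]
    abel
  refine ⟨R, ?_, Y, fun k => rfl, hY2, hY3⟩
  intro s
  have h1 := hT.2 1 le_rfl (lam s) (hlam1 s)
  rw [pow_one, pow_one, hlamn] at h1
  simp only [R]
  rw [norm_smul, hlamn]
  have h2 : 0 < 1 / ρ - 1 := by rw [sub_pos, lt_div_iff₀ hρ0]; linarith
  calc 1 / ρ * ‖resolvent T (lam s)‖ ≤ 1 / ρ * (M / (1 / ρ - 1)) := by gcongr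
    _ = M / (1 - ρ) := by
      have h3 : 1 - ρ ≠ 0 := by linarith
      have h4 : 1 / ρ - 1 = (1 - ρ) / ρ := by field_simp
      rw [h4]; field_simp

/-- The key estimate: the Fourier averages are `O(dim / n)`. -/
theorem fourier_bound {X : Type u} [NormedAddCommGroup X] [NormedSpace ℂ X]
    [FiniteDimensional ℂ X] (S : X →L[ℂ] X) (K : ℝ) (L m : ℕ) (hmL : 2 * (m + 1) ≤ L)
    (ω : ℂ) (hω : IsPrimitiveRoot ω L) (R Y : ℕ → X →L[ℂ] X) (hR : ∀ s, ‖R s‖ ≤ K)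
    (hY : ∀ k, Y k = (L : ℂ)⁻¹ • ∑ s ∈ Finset.range L, (ω⁻¹) ^ (s * k) • R s)
    (hY2 : ∀ k, k < L → Y k = S ^ k * Y 0) (x : X) (l : X →L[ℂ] ℂ) :
    (m + 1) * ‖l (Y m x)‖ ≤ Module.finrank ℂ X * (K * (‖l‖ * ‖x‖)) := by
  have hL0 : 0 < L := by omega
  have hLne : (L : ℂ) ≠ 0 := by exact_mod_cast hL0.ne'
  have hωn : ‖ω‖ = 1 := hω.norm'_eq_one hL0.ne'
  have hω0 : ω ≠ 0 := hω.ne_zero hL0.ne'
  have hconj : (starRingEnd ℂ) ω = ω⁻¹ := by
    rw [Complex.inv_def, Complex.normSq_eq_norm_sq, hωn]; simp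
  let Ψ : X →ₗ[ℂ] EuclideanSpace ℂ (Fin (m + 1)) :=
    { toFun := fun y => WithLp.toLp 2 fun i : Fin (m + 1) => l ((S ^ (i : ℕ)) y)
      map_add' := by
        intro y y'
        ext i
        simp
      map_smul' := by
        intro c y
        ext i
        simp }
  let Ξ : EuclideanSpace ℂ (Fin (m + 1)) →ₗ[ℂ] X :=
    { toFun := fun b => ∑ j : Fin (m + 1), b j • (Y (m - j)) x
      map_add' := by
        intro y y'
        simp [add_smul, Finset.sum_add_distrib]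
      map_smul' := by
        intro c y
        simp [mul_smul, Finset.smul_sum] }
  let B : EuclideanSpace ℂ (Fin (m + 1)) →ₗ[ℂ] EuclideanSpace ℂ (Fin (m + 1)) := Ψ ∘ₗ Ξ
  have hBapp : ∀ (f : EuclideanSpace ℂ (Fin (m + 1))) (i : Fin (m + 1)),
      (B f) i = ∑ j : Fin (m + 1), f j * l (Y (i + (m - j)) x) := by
    intro f i
    change l ((S ^ (i : ℕ)) (∑ j : Fin (m + 1), f j • (Y (m - j)) x)) = _
    rw [map_sum, map_sum]
    apply Finset.sum_congr rfl
    intro j _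
    rw [map_smul, map_smul, smul_eq_mul]
    congr 2
    have h1 : (m - (j:ℕ)) < L := by omega
    have h2 : ((i:ℕ) + (m - (j:ℕ))) < L := by omega
    rw [hY2 _ h1, hY2 _ h2, pow_add, mul_assoc]
    rfl
  have htr : LinearMap.trace ℂ (EuclideanSpace ℂ (Fin (m + 1))) B = (m + 1) * l (Y m x) := by
    rw [LinearMap.trace_eq_sum_inner B (EuclideanSpace.basisFun (Fin (m + 1)) ℂ)]
    have h1 : ∀ i : Fin (m + 1), ⟪(EuclideanSpace.basisFun (Fin (m + 1)) ℂ) i,
        B ((EuclideanSpace.basisFun (Fin (m + 1)) ℂ) i)⟫_ℂ = l (Y m x) := by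
      intro i
      rw [EuclideanSpace.basisFun_apply, EuclideanSpace.inner_single_left, hBapp]
      rw [map_one, one_mul, Finset.sum_eq_single i]
      · rw [PiLp.single_apply, if_pos rfl, one_mul]
        congr 3
        omega
      · intro j _ hj
        rw [PiLp.single_apply, if_neg hj, zero_mul]
      · intro h
        exact absurd (Finset.mem_univ i) h
    rw [Finset.sum_congr rfl (fun i _ => h1 i)]
    simp
  have hB : ∀ f : EuclideanSpace ℂ (Fin (m + 1)), ‖⟪f, B f⟫_ℂ‖ ≤ (K * (‖l‖ * ‖x‖)) * ‖f‖ ^ 2 := by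
    intro f
    have h1 : ⟪f, B f⟫_ℂ = (L : ℂ)⁻¹ * ∑ s ∈ Finset.range L, (ω⁻¹) ^ (s * m) * l (R s x) *
        ((‖∑ j : Fin (m + 1), ω ^ (s * j) * f j‖ ^ 2 : ℝ) : ℂ) := by
      rw [PiLp.inner_apply]
      have h2 : ∀ i : Fin (m + 1), ⟪f i, (B f) i⟫_ℂ = ∑ j : Fin (m + 1), ∑ s ∈ Finset.range L,
          (L : ℂ)⁻¹ * ((ω⁻¹) ^ (s * (i + (m - j))) * l (R s x) * ((starRingEnd ℂ) (f i) * f j)) := by
        intro i
        rw [RCLike.inner_apply, hBapp, Finset.sum_mul]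
        apply Finset.sum_congr rfl
        intro j _
        rw [hY]
        simp only [FunLike.coe_smul, FunLike.coe_sum, Pi.smul_apply,
          Finset.sum_apply, map_smul, map_sum, smul_eq_mul]
        rw [← Finset.mul_sum, Finset.mul_sum, Finset.mul_sum, Finset.mul_sum, Finset.sum_mul]
        apply Finset.sum_congr rfl
        intro s _
        ring
      rw [Finset.sum_congr rfl (fun i _ => h2 i)]
      have h3 : ∀ i : Fin (m + 1), ∑ j : Fin (m + 1), ∑ s ∈ Finset.range L,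
          (L : ℂ)⁻¹ * ((ω⁻¹) ^ (s * (i + (m - j))) * l (R s x) * ((starRingEnd ℂ) (f i) * f j)) =
          ∑ s ∈ Finset.range L, ∑ j : Fin (m + 1),
          (L : ℂ)⁻¹ * ((ω⁻¹) ^ (s * (i + (m - j))) * l (R s x) * ((starRingEnd ℂ) (f i) * f j)) :=
        fun i => Finset.sum_comm
      rw [Finset.sum_congr rfl (fun i _ => h3 i), Finset.sum_comm, Finset.mul_sum]
      apply Finset.sum_congr rfl
      intro s _
      rw [Complex.ofReal_pow, ← Complex.conj_mul', map_sum, Finset.sum_mul_sum, Finset.mul_sum,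
        Finset.mul_sum]
      apply Finset.sum_congr rfl
      intro i _
      rw [Finset.mul_sum, Finset.mul_sum]
      apply Finset.sum_congr rfl
      intro j _
      have h4 : (ω⁻¹) ^ (s * ((i:ℕ) + (m - (j:ℕ)))) = (ω⁻¹) ^ (s * m) * ((ω⁻¹) ^ (s * (i:ℕ)) *
          ω ^ (s * (j:ℕ))) := by
        have h5 : s * m = s * (m - (j:ℕ)) + s * (j:ℕ) := by
          rw [← mul_add]; congr 1; omega
        rw [h5, mul_add, pow_add, pow_add]
        have h6 : (ω⁻¹) ^ (s * (j:ℕ)) * ω ^ (s * (j:ℕ)) = 1 := by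
          rw [← mul_pow, inv_mul_cancel₀ hω0, one_pow]
        linear_combination (-(ω⁻¹) ^ (s * (i:ℕ)) * (ω⁻¹) ^ (s * (m - (j:ℕ)))) * h6
      rw [h4, map_mul, map_pow, hconj]
      ring
    rw [h1, norm_mul, norm_inv, Complex.norm_natCast]
    have h5 : ‖∑ s ∈ Finset.range L, (ω⁻¹) ^ (s * m) * l (R s x) *
        ((‖∑ j : Fin (m + 1), ω ^ (s * j) * f j‖ ^ 2 : ℝ) : ℂ)‖ ≤
        ∑ s ∈ Finset.range L, (K * (‖l‖ * ‖x‖)) * ‖∑ j : Fin (m + 1), ω ^ (s * j) * f j‖ ^ 2 := by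
      refine (norm_sum_le _ _).trans (Finset.sum_le_sum fun s _ => ?_)
      rw [norm_mul, norm_mul, norm_pow, norm_inv, hωn, inv_one, one_pow, one_mul,
        Complex.norm_real, norm_pow, norm_norm]
      gcongr
      calc ‖l (R s x)‖ ≤ ‖l‖ * (‖R s‖ * ‖x‖) :=
            (l.le_opNorm _).trans (by gcongr; exact (R s).le_opNorm x)
        _ ≤ ‖l‖ * (K * ‖x‖) := by gcongr; exact hR s
        _ = _ := by ring
    rw [← Finset.mul_sum, parseval L (m + 1) (by omega) hL0 ω hω] at h5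
    have h6 : ‖f‖ ^ 2 = ∑ j, ‖f j‖ ^ 2 := EuclideanSpace.norm_sq_eq f
    rw [h6]
    calc _ ≤ (L : ℝ)⁻¹ * (K * (‖l‖ * ‖x‖) * (L * ∑ j, ‖f j‖ ^ 2)) := by gcongr
      _ = _ := by
        have : (L : ℝ) ≠ 0 := by exact_mod_cast hL0.ne'
        field_simp
  have hfin := trace_bound B (LinearMap.range Ψ) (fun f => ⟨Ξ f, rfl⟩) _ hB
  rw [htr, norm_mul] at hfin
  have hm : ‖((m : ℂ) + 1)‖ = (m : ℝ) + 1 := by
    have : ((m : ℂ) + 1) = ((m + 1 : ℕ) : ℂ) := by push_cast; rfl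
    rw [this, Complex.norm_natCast]; push_cast; rfl
  rw [hm] at hfin
  refine hfin.trans ?_
  have hK0 : 0 ≤ K := (norm_nonneg _).trans (hR 0)
  gcongr
  exact LinearMap.finrank_range_le Ψ

/-- A Kreiss-type theorem (linear in the dimension). -/
theorem upper_bound {X : Type u} [NormedAddCommGroup X] [NormedSpace ℂ X]
    [FiniteDimensional ℂ X] (T : X →L[ℂ] X) (M : ℝ) (hT : StronglyKreissBounded T M) (m : ℕ)
    (hm : 1 ≤ m) : ‖T ^ m‖ ≤ 6 * M * Module.finrank ℂ X := by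
  have hm0 : (0:ℝ) < m := by exact_mod_cast hm
  set ρ : ℝ := m / (m + 1) with hρ
  have hρ0 : 0 < ρ := by positivity
  have hρ1 : ρ < 1 := by rw [hρ, div_lt_one (by positivity)]; linarith
  obtain ⟨L, hL1, hL2⟩ := exists_large_power T hT.1 ρ hρ0 hρ1 (2 * (m + 1))
  have hLpos : 0 < L := by omega
  have hω := Complex.isPrimitiveRoot_exp L hLpos.ne'
  obtain ⟨R, hR, Y, hY, hY2, hY3⟩ := fourier_resolvent T M hT ρ hρ0 hρ1 L (by omega) _ hω
  have h1 : (m + 1) * ‖Y m‖ ≤ Module.finrank ℂ X * (M / (1 - ρ)) := by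
    have hK0 : 0 ≤ M / (1 - ρ) := (norm_nonneg _).trans (hR 0)
    have h2 : ‖Y m‖ ≤ Module.finrank ℂ X * (M / (1 - ρ)) / (m + 1) := by
      refine ContinuousLinearMap.opNorm_le_bound _ (by positivity) fun x => ?_
      obtain ⟨l, hl1, hl2⟩ := exists_dual_vector'' ℂ (Y m x)
      have h3 := fourier_bound ((ρ : ℂ) • T) (M / (1 - ρ)) L m hL1 _ hω R Y hR hY hY2 x l
      rw [hl2] at h3
      rw [RCLike.norm_ofReal, abs_norm] at h3
      rw [div_mul_eq_mul_div, le_div_iff₀ (by positivity)]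
      calc ‖Y m x‖ * (m + 1) = (m + 1) * ‖Y m x‖ := mul_comm _ _
        _ ≤ _ := h3
        _ ≤ Module.finrank ℂ X * ((M / (1 - ρ)) * (1 * ‖x‖)) := by gcongr
        _ = _ := by ring
    rw [le_div_iff₀ (by positivity)] at h2
    linarith
  have h2 : ((ρ : ℂ) • T) ^ m = (1 - ((ρ : ℂ) • T) ^ L) * Y m := by
    rw [hY2 m (by omega)]
    have h3 : (1 - ((ρ : ℂ) • T) ^ L) * (((ρ : ℂ) • T) ^ m * Y 0) =
        ((ρ : ℂ) • T) ^ m * ((1 - ((ρ : ℂ) • T) ^ L) * Y 0) := by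
      rw [← mul_assoc, ← mul_assoc, sub_mul, mul_sub, one_mul, mul_one, ← pow_add, ← pow_add,
        add_comm]
    rw [h3, hY3, mul_one]
  have h3 : ‖((ρ : ℂ) • T) ^ m‖ ≤ 2 * ‖Y m‖ := by
    rw [h2]
    calc _ ≤ ‖1 - ((ρ : ℂ) • T) ^ L‖ * ‖Y m‖ := norm_mul_le _ _
      _ ≤ 2 * ‖Y m‖ := by
        gcongr
        calc ‖1 - ((ρ : ℂ) • T) ^ L‖ ≤ ‖(1 : X →L[ℂ] X)‖ + ‖((ρ : ℂ) • T) ^ L‖ := norm_sub_le _ _
          _ ≤ 1 + 1 := by
            gcongr
            exact ContinuousLinearMap.norm_id_le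
          _ = 2 := by norm_num
  rw [smul_pow, norm_smul, norm_pow, Complex.norm_real, Real.norm_of_nonneg hρ0.le] at h3
  have h4 : 1 - ρ = 1 / (m + 1) := by rw [hρ]; field_simp; ring
  rw [h4] at h1
  have h5 : ‖Y m‖ ≤ Module.finrank ℂ X * M := by
    have : Module.finrank ℂ X * (M / (1 / ((m:ℝ) + 1))) = (m + 1) * (Module.finrank ℂ X * M) := by
      field_simp
    rw [this] at h1
    exact le_of_mul_le_mul_left h1 (by positivity)
  have h6 : (1 / ρ) ^ m ≤ 3 := by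
    have h7 : 1 / ρ ≤ Real.exp (1 / m) := by
      have := Real.add_one_le_exp (1 / (m:ℝ))
      calc 1 / ρ = 1 / m + 1 := by rw [hρ]; field_simp; ring
        _ ≤ _ := this
    calc (1 / ρ) ^ m ≤ (Real.exp (1 / m)) ^ m := by gcongr
      _ = Real.exp 1 := by rw [← Real.exp_nat_mul]; congr 1; field_simp
      _ ≤ 3 := by linarith [Real.exp_one_lt_d9]
  calc ‖T ^ m‖ = (1 / ρ) ^ m * (ρ ^ m * ‖T ^ m‖) := by
        rw [← mul_assoc, ← mul_pow, one_div_mul_cancel hρ0.ne', one_pow, one_mul]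
    _ ≤ 3 * (2 * (Module.finrank ℂ X * M)) := by
        have h8 : ρ ^ m * ‖T ^ m‖ ≤ 2 * (Module.finrank ℂ X * M) := by linarith
        have h9 : 0 ≤ ρ ^ m * ‖T ^ m‖ := by positivity
        exact mul_le_mul h6 h8 h9 (by norm_num)
    _ = _ := by ring

/-! ## The two bounds combined -/

theorem lower_example (N : ℕ) (hN : 2 ≤ N) :
    ∃ (X : Type u) (_ : NormedAddCommGroup X) (_ : NormedSpace ℂ X)
      (_ : FiniteDimensional ℂ X) (T : X →L[ℂ] X),
      Module.finrank ℂ X = 2 * N ∧ StronglyKreissBounded T 1 ∧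
        ∃ n : ℕ, 1 ≤ n ∧ (N : ℝ) / 24 ≤ ‖T ^ n‖ := by
  have hN0 : 0 < N := by omega
  have hNr : (2:ℝ) ≤ N := by exact_mod_cast hN
  have hω := Complex.isPrimitiveRoot_exp N hN0.ne'
  set ω : ℂ := Complex.exp (2 * Real.pi * Complex.I / N) with hωdef
  have hωn : ‖ω‖ = 1 := hω.norm'_eq_one hN0.ne'
  set q : ℝ := 1 - ((1:ℝ) / N) ^ 2 with hq
  have hq0 : 0 < q := by
    have : ((1:ℝ) / N) ^ 2 ≤ (1 / 2) ^ 2 := by gcongr
    rw [hq]; nlinarith
  have hq1 : q < 1 := by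
    have : 0 < ((1:ℝ) / N) ^ 2 := by positivity
    rw [hq]; linarith
  let ι : Type u := ULift.{u} (Fin N ⊕ Fin N)
  let μ' : Fin N ⊕ Fin N → ℂ := Sum.elim (fun j => ω ^ (j : ℕ)) (fun j => (q : ℂ) * ω ^ (j : ℕ))
  let a' : Fin N ⊕ Fin N → ℂ := Sum.elim (fun _ => 1) (fun _ => -1)
  let μ : ι → ℂ := fun i => μ' i.down
  let a : ι → ℂ := fun i => a' i.down
  have hsum : ∀ g : Fin N ⊕ Fin N → ℂ, ∑ i : ι, g i.down =
      ∑ j ∈ Finset.range N, ((fun k : ℕ => if h : k < N then g (Sum.inl ⟨k, h⟩) else 0) j +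
        (fun k : ℕ => if h : k < N then g (Sum.inr ⟨k, h⟩) else 0) j) := by
    intro g
    have h1 : ∑ i : ι, g i.down = ∑ i : Fin N ⊕ Fin N, g i :=
      Fintype.sum_equiv Equiv.ulift _ _ (fun _ => rfl)
    rw [h1, Fintype.sum_sum_type, Finset.sum_add_distrib, ← Fin.sum_univ_eq_sum_range,
      ← Fin.sum_univ_eq_sum_range]
    simp
  have hnorm1 : ∀ j : ℕ, ‖ω ^ j‖ = 1 := by intro j; rw [norm_pow, hωn, one_pow]
  have hμ' : ∀ i, ‖μ' i‖ ≤ 1 := by
    rintro (j | j)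
    · simp only [μ', Sum.elim_inl]; rw [hnorm1]
    · simp only [μ', Sum.elim_inr]
      rw [norm_mul, hnorm1, mul_one, Complex.norm_real, Real.norm_of_nonneg hq0.le]
      exact hq1.le
  have hqc : (q : ℂ) ≠ 0 := by exact_mod_cast hq0.ne'
  have hinj' : Function.Injective μ' := by
    rintro (i | i) (j | j) h
    · simp only [μ', Sum.elim_inl] at h
      rw [Fin.ext (hω.pow_inj i.2 j.2 h)]
    · simp only [μ', Sum.elim_inl, Sum.elim_inr] at h
      have := congrArg norm h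
      rw [norm_mul, hnorm1, hnorm1, mul_one, Complex.norm_real, Real.norm_of_nonneg hq0.le] at this
      linarith
    · simp only [μ', Sum.elim_inl, Sum.elim_inr] at h
      have := congrArg norm h
      rw [norm_mul, hnorm1, hnorm1, mul_one, Complex.norm_real, Real.norm_of_nonneg hq0.le] at this
      linarith
    · simp only [μ', Sum.elim_inr] at h
      rw [Fin.ext (hω.pow_inj i.2 j.2 (mul_left_cancel₀ hqc h))]
  have hinj : Function.Injective μ := hinj'.comp ULift.down_injective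
  have hC : ∀ z : ℂ, ‖∑ i, a i * Complex.exp (μ i * z)‖ ≤ 12 * Real.exp ‖z‖ := by
    intro z
    have h1 := example_bound N hN0 ω hω z
    have h2 : ∑ i, a i * Complex.exp (μ i * z) = ∑ j ∈ Finset.range N, (Complex.exp (ω ^ j * z) -
      Complex.exp ((q : ℝ) * (ω ^ j) * z)) := by
      rw [hsum (fun i => a' i * Complex.exp (μ' i * z))]
      apply Finset.sum_congr rfl
      intro j hj
      have hj' := Finset.mem_range.1 hj
      simp [hj', a', μ', sub_eq_add_neg]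
    rw [h2]
    exact h1
  obtain ⟨X, i1, i2, i3, T, hfr, hSK, hpow⟩ := exists_space μ hinj (fun i => hμ' i.down) a 12 hC
  refine ⟨X, i1, i2, i3, T, ?_, hSK, ?_⟩
  · rw [hfr]
    simp [ι]
    ring
  · obtain ⟨k, hk⟩ := exists_pow_lt_of_lt_one (show (0:ℝ) < 1 / 2 by norm_num) hq1
    refine ⟨N * (k + 1), Nat.mul_pos hN0 (Nat.succ_pos k), ?_⟩
    have h1 := hpow (N * (k + 1))
    have h2 : ∑ i, a i * μ i ^ (N * (k + 1)) = ((N * (1 - q ^ (N * (k + 1))) : ℝ) : ℂ) := by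
      rw [hsum (fun i => a' i * μ' i ^ (N * (k + 1)))]
      have h3 : ∀ j ∈ Finset.range N, ((fun l : ℕ => if h : l < N then
          (fun i => a' i * μ' i ^ (N * (k + 1))) (Sum.inl ⟨l, h⟩) else 0) j +
          (fun l : ℕ => if h : l < N then
          (fun i => a' i * μ' i ^ (N * (k + 1))) (Sum.inr ⟨l, h⟩) else 0) j) =
            1 - (q : ℂ) ^ (N * (k + 1)) := by
        intro j hj
        have hj' := Finset.mem_range.1 hj
        have h4 : (ω ^ j) ^ (N * (k + 1)) = 1 := by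
          rw [← pow_mul, mul_comm, pow_mul, pow_mul, hω.pow_eq_one, one_pow, one_pow]
        simp only [hj', a', μ', Sum.elim_inl, Sum.elim_inr, dif_pos]
        rw [mul_pow, h4]
        ring
      rw [Finset.sum_congr rfl h3]
      simp only [Finset.sum_const, Finset.card_range, nsmul_eq_mul]
      push_cast
      ring
    rw [h2, Complex.norm_real] at h1
    have h5 : q ^ (N * (k + 1)) ≤ 1 / 2 := by
      calc q ^ (N * (k + 1)) ≤ q ^ k := by
            apply pow_le_pow_of_le_one hq0.le hq1.le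
            nlinarith
        _ ≤ 1 / 2 := hk.le
    have h6 : (N : ℝ) * (1 / 2) ≤ ‖(N : ℝ) * (1 - q ^ (N * (k + 1)))‖ := by
      refine le_trans ?_ (Real.le_norm_self _)
      gcongr
      linarith
    linarith

theorem StronglyKreissBounded.mono {X : Type u} [NormedAddCommGroup X] [NormedSpace ℂ X]
    {T : X →L[ℂ] X} {M M' : ℝ} (h : StronglyKreissBounded T M) (hM : M ≤ M') :
    StronglyKreissBounded T M' := by
  refine ⟨h.1, fun k hk z hz => (h.2 k hk z hz).trans ?_⟩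
  have : 0 < ‖z‖ - 1 := by linarith
  gcongr

theorem admissibleFor_one (M : ℝ) : AdmissibleFor.{u} M 1 := by
  refine ⟨6 * M, ?_⟩
  intro X _ _ _ _ T hT n hn
  rw [Real.rpow_one]
  exact upper_bound T M hT n hn

theorem not_admissibleFor (M : ℝ) (hM : 1 ≤ M) (θ : ℝ) (hθ : θ < 1) : ¬ AdmissibleFor.{u} M θ := by
  rintro ⟨C, hC⟩
  have h1 : ∀ N : ℕ, 2 ≤ N → (N : ℝ) / 24 ≤ C * ((2 : ℝ) * N) ^ θ := by
    intro N hN
    obtain ⟨X, i1, i2, i3, T, hfr, hSK, n, hn, hpow⟩ := lower_example.{u} N hN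
    have h2 := hC X (by rw [hfr]; omega) T (hSK.mono hM) n hn
    rw [hfr] at h2
    push_cast at h2
    exact hpow.trans h2
  have h2 : Filter.Tendsto (fun N : ℕ => (N : ℝ) ^ (1 - θ)) Filter.atTop Filter.atTop :=
    (tendsto_rpow_atTop (by linarith)).comp tendsto_natCast_atTop_atTop
  obtain ⟨N, hN1, hN2⟩ := ((h2.eventually_gt_atTop (24 * (C * 2 ^ θ))).and
    (Filter.eventually_ge_atTop 2)).exists
  have hN0 : (0:ℝ) < N := by
    have : (2:ℝ) ≤ N := by exact_mod_cast hN2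
    linarith
  have h3 := h1 N hN2
  rw [Real.mul_rpow (by norm_num) hN0.le] at h3
  have h4 : (N : ℝ) = (N : ℝ) ^ (1 - θ) * (N : ℝ) ^ θ := by
    rw [← Real.rpow_add hN0]; simp
  have h5 : 0 < (N : ℝ) ^ θ := Real.rpow_pos_of_pos hN0 θ
  have h6 : (N : ℝ) ^ (1 - θ) * (N : ℝ) ^ θ ≤ (24 * (C * 2 ^ θ)) * (N : ℝ) ^ θ := by
    rw [← h4]; linarith
  exact absurd (le_of_mul_le_mul_right h6 h5) (not_le.2 hN1)

/-- **The optimal exponent is `θ* = 1`**; moreover for every single `M ≥ 1` (already for `M = 1`)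
the best exponent in a uniform bound `‖T ^ n‖ ≤ C d ^ θ` is exactly `1`, and it is attained. -/
theorem result : thetaStar.{u} = 1 ∧
    ∀ M : ℝ, 1 ≤ M → IsLeast {θ : ℝ | 0 ≤ θ ∧ AdmissibleFor.{u} M θ} 1 := by
  have hleast : ∀ M : ℝ, 1 ≤ M → IsLeast {θ : ℝ | 0 ≤ θ ∧ AdmissibleFor.{u} M θ} 1 := by
    intro M hM
    refine ⟨⟨zero_le_one, admissibleFor_one M⟩, ?_⟩
    rintro θ ⟨_, hθ⟩
    by_contra hcon
    exact not_admissibleFor M hM θ (not_le.1 hcon) hθ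
  refine ⟨?_, hleast⟩
  have h1 : IsLeast {θ : ℝ | Admissible.{u} θ} 1 := by
    refine ⟨⟨zero_le_one, fun M _ => admissibleFor_one M⟩, ?_⟩
    rintro θ ⟨h0, hθ⟩
    exact (hleast 1 le_rfl).2 ⟨h0, hθ 1 le_rfl⟩
  exact h1.csInf_eq

end Pool.Agent.Results.MP_389529_an.OptimalExponent
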